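import Mathlib

set_option autoImplicit false
open Set Filter Topology

namespace Pool.Agent.H.MP_d2b9e5

variable {W : Type} [DecidableEq W]

def ind (A : Finset W) : W → Bool := fun ξ => decide (ξ ∈ A)

omit [DecidableEq W] in
theorem cl {S : Set (W → Bool)} {x : W → Bool}
    (h : ∀ u : Finset W, ∃ y ∈ S, ∀ i ∈ u, y i = x i) : x ∈ closure S := by
  classical
  choose y h1 h2 using h
  refine mem_closure_of_tendsto (b := atTop) (tendsto_pi_nhds.2 fun i => ?_) (.of_forall h1)
  refine tendsto_const_nhds.congr' ?_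
  filter_upwards [eventually_ge_atTop {i}] with u hu
  exact (h2 u i (hu (Finset.mem_singleton_self i))).symm

theorem mob {V : Type} [AddCommGroup V] (δ : Finset W → V) (Kf : Finset W → Prop) :
    ∃ f : Finset W → V, (∀ A, ¬ Kf A → f A = 0) ∧
      ∀ A, Kf A → f A = δ A - ∑ B ∈ A.ssubsets, f B := by
  classical
  let H : ∀ A : Finset W, (∀ B, B ⊂ A → V) → V := fun A r =>
    if Kf A then δ A - ∑ B ∈ A.ssubsets.attach, r B.1 (Finset.mem_ssubsets.1 B.2) else 0
  refine ⟨Finset.strongInduction H, fun A hA => ?_, fun A hA => ?_⟩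
  · rw [Finset.strongInduction_eq]; exact if_neg hA
  · rw [Finset.strongInduction_eq]
    refine (if_pos hA).trans ?_
    rw [Finset.sum_attach A.ssubsets fun B => Finset.strongInduction H B]

noncomputable def ee (K : Set (W → Bool)) (i : W) : C(K, ℝ) :=
  ⟨fun B => if B.1 i = true then 1 else 0,
    (continuous_of_discreteTopology (f := fun b : Bool => if b = true then (1 : ℝ) else 0)).comp
      ((continuous_apply i).comp continuous_subtype_val)⟩

noncomputable def gg (K : Set (W → Bool)) (s : Finset W) : C(K, ℝ) := ∏ i ∈ s, ee K i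

omit [DecidableEq W] in
theorem gge (K : Set (W → Bool)) (s : Finset W) (B : K) :
    gg K s B = if ∀ i ∈ s, B.1 i = true then 1 else 0 := by
  rw [gg, ContinuousMap.prod_apply]
  exact Finset.prod_boole

theorem mb {K : Set (W → Bool)} [CompactSpace K]
    (hI : ∀ x ∈ K, ∀ y ∈ K, (fun i => x i && y i) ∈ K)
    (hF : ∀ s : Finset W, ∃ A, ind A ∈ K ∧ s ⊆ A) (hD : K ⊆ closure (K ∩ range ind)) :
    ∃ (I : Type) (x : I → C(K, ℝ)) (f : I → (C(K, ℝ) →L[ℝ] ℝ)),
      (∀ i j : I, i = j → f i (x j) = 1) ∧ (∀ i j : I, i ≠ j → f i (x j) = 0) ∧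
      Dense (Submodule.span ℝ (range x) : Set C(K, ℝ)) ∧
      ∀ y : C(K, ℝ), ∃ g ∈ Submodule.span ℝ (range f), ‖g‖ ≤ 1 ∧ 1 / 2 * ‖y‖ ≤ |g y| := by
  classical
  let δ : Finset W → C(K, ℝ) →L[ℝ] ℝ := fun A =>
    if h : ind A ∈ K then ContinuousMap.evalCLM ℝ (⟨ind A, h⟩ : K) else 0
  obtain ⟨f, f1, f2⟩ := mob δ fun A => ind A ∈ K
  have bi : ∀ C, ind C ∈ K → ∀ A, f A (gg K C) = if A = C then 1 else 0 := by
    intro C hC A
    induction A using Finset.strongInduction with
    | H A ih =>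
      by_cases hA : ind A ∈ K
      · rw [f2 A hA, ContinuousLinearMap.sub_apply, ContinuousLinearMap.sum_apply,
          Finset.sum_congr rfl fun B hB => ih B (Finset.mem_ssubsets.1 hB), Finset.sum_ite_eq']
        have e : δ A (gg K C) = if C ⊆ A then 1 else 0 := by
          simp only [δ, dif_pos hA, ContinuousMap.evalCLM_apply, gge, ind, decide_eq_true_eq]
          rfl
        rw [e]
        by_cases h1 : A = C
        · simp [h1]
        · by_cases h2 : C ⊆ A
          · simp [h1, h2, Finset.ssubset_iff_subset_ne, Ne.symm h1]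
          · simp [h1, h2, Finset.ssubset_iff_subset_ne]
      · rw [f1 A hA, if_neg fun e : A = C => hA (e ▸ hC)]; rfl
  refine ⟨{A : Finset W // ind A ∈ K}, fun A => gg K A.1, fun A => f A.1, ?_, ?_, ?_, ?_⟩
  · rintro i _ rfl
    rw [bi _ i.2, if_pos rfl]
  · intro i j hij
    rw [bi _ j.2, if_neg fun e => hij (Subtype.ext e)]
  · have h1 := ContinuousMap.subalgebra_topologicalClosure_eq_top_of_separatesPoints
      (Algebra.adjoin ℝ (range (ee K))) (by
        intro x y hxy
        obtain ⟨i, hi⟩ := Function.ne_iff.1 (Subtype.coe_injective.ne hxy)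
        refine ⟨_, ⟨ee K i, Algebra.subset_adjoin (mem_range_self i), rfl⟩, ?_⟩
        change (if x.1 i = true then (1 : ℝ) else 0) ≠ if y.1 i = true then 1 else 0
        cases h1 : x.1 i <;> cases h2 : y.1 i <;> simp_all)
    have h2 : Dense (Algebra.adjoin ℝ (range (ee K)) : Set C(K, ℝ)) := fun y => by
      have : y ∈ (Algebra.adjoin ℝ (range (ee K))).topologicalClosure := h1 ▸ Algebra.mem_top
      exact this
    refine h2.mono ?_
    have h3 : (Algebra.adjoin ℝ (range (ee K)) : Set C(K, ℝ)) =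
        Submodule.span ℝ (Submonoid.closure (range (ee K)) : Set C(K, ℝ)) := by
      rw [← Algebra.adjoin_eq_span]; rfl
    rw [h3]
    refine Submodule.span_mono fun y hy => ?_
    obtain ⟨s, rfl⟩ : ∃ s, y = gg K s := by
      induction hy using Submonoid.closure_induction with
      | mem y hy =>
        obtain ⟨i, rfl⟩ := hy
        exact ⟨{i}, by simp [gg]⟩
      | one => exact ⟨∅, by simp [gg]⟩
      | mul a b _ _ ha hb =>
        obtain ⟨s, rfl⟩ := ha
        obtain ⟨t, rfl⟩ := hb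
        refine ⟨s ∪ t, ContinuousMap.ext fun B => ?_⟩
        rw [ContinuousMap.mul_apply, gge, gge, gge]
        simp only [Finset.mem_union, or_imp, forall_and, ite_and]
        split_ifs <;> simp
    obtain ⟨C, hC, hm⟩ := exists_minimalFor_of_wellFoundedLT (fun A => ind A ∈ K ∧ s ⊆ A)
      Finset.card (hF s) |>.imp fun C h => And.intro h.prop h
    refine ⟨⟨C, hC.1⟩, ContinuousMap.ext fun B => ?_⟩
    rw [gge, gge]
    refine if_congr ⟨fun h i hi => h i (hC.2 hi), fun h => ?_⟩ rfl rfl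
    have e : ind (C.filter fun i => B.1 i = true) = fun i => ind C i && B.1 i := by
      funext i; simp [ind]
    have h4 := hm.le_of_le (j := C.filter fun i => B.1 i = true) ⟨e ▸ hI _ hC.1 _ B.2,
      fun i hi => Finset.mem_filter.2 ⟨hC.2 hi, h i hi⟩⟩ (Finset.card_filter_le _ _)
    exact Finset.card_filter_eq_iff.1 (le_antisymm (Finset.card_filter_le _ _) h4)
  · intro y
    by_cases hy : ‖y‖ = 0
    · exact ⟨0, zero_mem _, ContinuousLinearMap.opNorm_zero.trans_le zero_le_one, by simp [hy]⟩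
    have hp : 0 < ‖y‖ := lt_of_le_of_ne (norm_nonneg _) (Ne.symm hy)
    obtain ⟨p, hp'⟩ : ∃ p, 1 / 2 * ‖y‖ < |y p| := by
      by_contra hn
      push Not at hn
      have := (ContinuousMap.norm_le y (by positivity)).2 hn
      linarith
    have h1 : p ∈ closure ((Subtype.val : K → W → Bool) ⁻¹' range ind) := by
      rw [IsInducing.subtypeVal.closure_eq_preimage_closure_image, Subtype.image_preimage_coe]
      exact hD p.2
    obtain ⟨q, hq, A, hA⟩ := mem_closure_iff.1 h1 _
      (isOpen_lt continuous_const y.continuous.abs) hp'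
    have hK : ind A ∈ K := hA ▸ q.2
    refine ⟨δ A, ?_, ?_, ?_⟩
    · have e : δ A = f A + ∑ B ∈ A.ssubsets, f B := by rw [f2 A hK]; simp
      have m : ∀ B, f B ∈ Submodule.span ℝ (range fun A : {A : Finset W // ind A ∈ K} => f A.1) :=
        fun B => by
          by_cases hB : ind B ∈ K
          · exact Submodule.subset_span ⟨⟨B, hB⟩, rfl⟩
          · rw [f1 B hB]; exact zero_mem _
      rw [e]
      exact add_mem (m A) (sum_mem fun B _ => m B)
    · simp only [δ, dif_pos hK]
      exact ContinuousLinearMap.opNorm_le_bound _ zero_le_one fun v => by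
        rw [one_mul]; exact ContinuousMap.norm_coe_le_norm v _
    · simp only [δ, dif_pos hK, ContinuousMap.evalCLM_apply]
      have : (⟨ind A, hK⟩ : K) = q := Subtype.ext hA
      rw [this]
      exact le_of_lt hq

structure OM {W : Type} [LinearOrder W] (F : ℕ → W → Finset W) : Prop where
  p1 : ∀ n a, a ∈ F n a
  p2 : ∀ n a, ∀ b ∈ F n a, b ≤ a
  p3 : ∀ n a, ∀ b ∈ F n a, ∀ c ≤ b, (c ∈ F n a ↔ c ∈ F n b)
  p4 : ∀ a, Monotone fun n => F n a
  p5 : ∀ a b, b ≤ a → ∃ n, b ∈ F n a
  p6 : ∀ a, F 0 a = {a}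

def KK {W : Type} [LinearOrder W] (F : ℕ → W → Finset W) : Set (W → Bool) :=
  closure (range fun p : ℕ × W => ind (F p.1 p.2))

section
variable {X : Type} [LinearOrder X] {F : ℕ → X → Finset X}

instance cK : CompactSpace (KK F) := isCompact_iff_compactSpace.1 isClosed_closure.isCompact

theorem gen (n : ℕ) (a : X) : ind (F n a) ∈ KK F := subset_closure ⟨(n, a), rfl⟩

theorem OM.emp [Infinite X] (h : OM F) : ind ∅ ∈ KK F := cl fun u => by
  obtain ⟨a, ha⟩ := Infinite.exists_notMem_finset u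
  refine ⟨_, ⟨(0, a), rfl⟩, fun i hi => ?_⟩
  have : i ≠ a := fun e => ha (e ▸ hi)
  simp [ind, h.p6, this]

theorem OM.big (h : OM F) (a : X) (s : Finset X) : ∃ n, ∀ b ∈ s, b ≤ a → b ∈ F n a := by
  choose! n hn using h.p5 a
  exact ⟨s.sup n, fun b hb hba => h.p4 a (Finset.le_sup hb) (hn b hba)⟩

theorem OM.int [Infinite X] (h : OM F) : ∀ x ∈ KK F, ∀ y ∈ KK F, (fun i => x i && y i) ∈ KK F := by
  have key : ∀ n m a b, n ≤ m → ind (F n a ∩ F m b) ∈ KK F := by
    intro n m a b hnm
    rcases (F n a ∩ F m b).eq_empty_or_nonempty with e | e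
    · rw [e]; exact h.emp
    · have hc := Finset.mem_inter.1 (Finset.max'_mem _ e)
      convert gen (F := F) n ((F n a ∩ F m b).max' e) using 2
      ext c
      constructor
      · intro hm
        exact (h.p3 n a _ hc.1 c (Finset.le_max' _ _ hm)).1 (Finset.mem_inter.1 hm).1
      · intro hm
        have hle := h.p2 _ _ _ hm
        exact Finset.mem_inter.2 ⟨(h.p3 n a _ hc.1 c hle).2 hm,
          (h.p3 m b _ hc.2 c hle).2 (h.p4 _ hnm hm)⟩
  intro x hx y hy
  have hc : Continuous (Function.uncurry fun (x y : X → Bool) i => x i && y i) :=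
    continuous_pi fun i => (continuous_of_discreteTopology
      (f := fun p : Bool × Bool => p.1 && p.2)).comp
        (f := fun p : (X → Bool) × (X → Bool) => (p.1 i, p.2 i)) (by fun_prop)
  refine isClosed_closure.closure_subset (map_mem_closure₂ hc hx hy ?_)
  rintro _ ⟨⟨n, a⟩, rfl⟩ _ ⟨⟨m, b⟩, rfl⟩
  have e : (fun i => ind (F n a) i && ind (F m b) i) = ind (F n a ∩ F m b) := by
    funext i; simp [ind]
  change (fun i => ind (F n a) i && ind (F m b) i) ∈ KK F
  rw [e]
  rcases le_total n m with h1 | h1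
  · exact key n m a b h1
  · rw [Finset.inter_comm]; exact key m n b a h1

theorem OM.mb [Infinite X] (h : OM F) :
    ∃ (I : Type) (x : I → C(KK F, ℝ)) (f : I → (C(KK F, ℝ) →L[ℝ] ℝ)),
      (∀ i j : I, i = j → f i (x j) = 1) ∧ (∀ i j : I, i ≠ j → f i (x j) = 0) ∧
      Dense (Submodule.span ℝ (range x) : Set C(KK F, ℝ)) ∧
      ∀ y : C(KK F, ℝ), ∃ g ∈ Submodule.span ℝ (range f), ‖g‖ ≤ 1 ∧ 1 / 2 * ‖y‖ ≤ |g y| := by
  refine MP_d2b9e5.mb h.int (fun s => ?_) (closure_mono ?_)
  · rcases s.eq_empty_or_nonempty with e | e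
    · exact ⟨∅, h.emp, e.subset⟩
    · obtain ⟨n, hn⟩ := h.big (s.max' e) s
      exact ⟨_, gen n _, fun b hb => hn b hb (Finset.le_max' _ _ hb)⟩
  · rintro _ ⟨p, rfl⟩
    exact ⟨gen _ _, _, rfl⟩

end

end Pool.Agent.H.MP_d2b9e5
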