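import Pool.Agent.H.MP_d2b9e5.A

set_option autoImplicit false
open Set Filter Topology

namespace Pool.Agent.H.MP_d2b9e5

variable {W : Type} [LinearOrder W]

structure Q (β : W) (r : ∀ γ, γ < β → ℕ → Finset W) (v : ℕ → Finset W) : Prop where
  q1 : ∀ n, β ∈ v n
  q2 : ∀ n, ∀ b ∈ v n, b ≤ β
  q3 : ∀ n, ∀ b ∈ v n, ∀ h : b < β, ∀ c ≤ b, (c ∈ v n ↔ c ∈ r b h n)
  q4 : Monotone v
  q5 : ∀ b ≤ β, ∃ n, b ∈ v n
  q6 : ∀ n, (v n).card ≤ n + 1
  q7 : ∀ k, ∃ N, ∀ n ≥ N, (v n).card + k ≤ n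

theorem step (β : W) (hc : (Iio β).Countable) (F : W → ℕ → Finset W)
    (ih : ∀ γ < β, Q γ (fun a _ => F a) (F γ)) : ∃ v, Q β (fun a _ => F a) v := by
  classical
  rcases (Iio β).eq_empty_or_nonempty with he | he
  · refine ⟨fun _ => {β}, fun _ => by simp, fun _ b hb => (Finset.mem_singleton.1 hb).le,
      fun n b hb h => absurd (Finset.mem_singleton.1 hb) h.ne, monotone_const, fun b hb => ⟨0, ?_⟩,
      fun n => by simp, fun k => ⟨k + 1, fun n hn => by simp; omega⟩⟩
    exact Finset.mem_singleton.2 (hb.eq_or_lt.resolve_right fun h => (he ▸ h : b ∈ (∅ : Set W)))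
  obtain ⟨e, he⟩ := hc.exists_eq_range he
  let γ : ℕ → W := partialSups e
  have g1 : ∀ k, γ k < β := fun k => by
    induction k with
    | zero => exact (he ▸ mem_range_self 0 : e 0 ∈ Iio β)
    | succ k h =>
      change partialSups e (k + 1) < β
      rw [partialSups_add_one]
      exact max_lt h (he ▸ mem_range_self (k + 1) : e (k + 1) ∈ Iio β)
  have g2 : Monotone γ := (partialSups e).monotone
  have p3 : ∀ a < β, ∀ n, ∀ b ∈ F a n, ∀ c ≤ b, (c ∈ F a n ↔ c ∈ F b n) := by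
    intro a ha n b hb c hc
    rcases ((ih a ha).q2 n b hb).eq_or_lt with h | h
    · rw [h]
    · exact (ih a ha).q3 n b hb h c hc
  let cond : ℕ → ℕ → Prop := fun k m => γ k ∈ F (γ (k + 1)) m ∧
    ∀ n ≥ m, (F (γ (k + 1)) n).card + (k + 2) ≤ n
  let κ : ℕ → ℕ := fun n => Nat.rec 0 (fun n k => if cond k (n + 1) then k + 1 else k) n
  have k1 : ∀ n, κ (n + 1) = if cond (κ n) (n + 1) then κ n + 1 else κ n := fun _ => rfl
  have k2 : Monotone κ := monotone_nat_of_le_succ fun n => by rw [k1]; split_ifs <;> omega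
  have k3 : ∀ k, ∃ n, k ≤ κ n := by
    intro k
    induction k with
    | zero => exact ⟨0, le_rfl⟩
    | succ k h =>
      obtain ⟨n, hn⟩ := h
      obtain ⟨m1, h1⟩ := (ih _ (g1 (κ n + 1))).q5 _ (g2 (Nat.le_succ (κ n)))
      obtain ⟨m2, h2⟩ := (ih _ (g1 (κ n + 1))).q7 (κ n + 2)
      refine ⟨n + m1 + m2 + 1, ?_⟩
      rcases (k2 (show n ≤ n + m1 + m2 by omega)).eq_or_lt with h3 | h3
      · rw [k1, ← h3, if_pos ⟨(ih _ (g1 (κ n + 1))).q4 (by omega) h1,
          fun m hm => h2 m (by omega)⟩]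
        omega
      · have := k2 (Nat.le_succ (n + m1 + m2))
        simp only [Nat.succ_eq_add_one] at this
        omega
  obtain ⟨N, hN⟩ := (ih _ (g1 0)).q7 1
  have k4 : ∀ n, ∀ m ≥ n, N ≤ m → (F (γ (κ n)) m).card + (κ n + 1) ≤ m := by
    intro n
    induction n with
    | zero => exact fun m _ hm => hN m hm
    | succ n h =>
      intro m hm hm'
      rw [k1]
      split_ifs with hcd
      · exact hcd.2 m hm
      · exact h m (by omega) hm'
  let G : ℕ → Finset W := fun n => if n < N then ∅ else F (γ (κ n)) n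
  have G1 : ∀ n, ∀ b ∈ G n, N ≤ n ∧ b ∈ F (γ (κ n)) n := fun n b hb => by
    simp only [G] at hb
    split_ifs at hb with h
    · simp at hb
    · exact ⟨not_lt.1 h, hb⟩
  have G2 : ∀ n, N ≤ n → G n = F (γ (κ n)) n := fun n hn => if_neg (not_lt.2 hn)
  have G3 : Monotone G := monotone_nat_of_le_succ fun n b hb => by
    obtain ⟨h1, h2⟩ := G1 n b hb
    rw [G2 _ (by omega), k1]
    have h3 := (ih _ (g1 (κ n))).q4 (Nat.le_succ n) h2
    split_ifs with hcd
    · exact (p3 _ (g1 _) _ _ hcd.1 b ((ih _ (g1 _)).q2 _ _ h2)).2 h3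
    · exact h3
  have G4 : ∀ n, (G n).card ≤ n := fun n => by
    by_cases h : n < N
    · simp [G, h]
    · rw [G2 n (not_lt.1 h)]
      have := k4 n n le_rfl (not_lt.1 h)
      omega
  refine ⟨fun n => insert β (G n), fun n => Finset.mem_insert_self _ _, fun n b hb => ?_,
    fun n b hb h c hc => ?_, fun n m h => Finset.insert_subset_insert _ (G3 h), fun b hb => ?_,
    fun n => (Finset.card_insert_le _ _).trans (by have := G4 n; omega), fun k => ?_⟩
  · rcases Finset.mem_insert.1 hb with h | h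
    · exact h.le
    · exact ((ih _ (g1 _)).q2 _ _ (G1 n b h).2).trans (g1 _).le
  · obtain ⟨h1, h2⟩ := G1 n b ((Finset.mem_insert.1 hb).resolve_left h.ne)
    rw [Finset.mem_insert, G2 n h1, p3 _ (g1 _) n b h2 c hc]
    exact or_iff_right (hc.trans_lt h).ne
  · rcases hb.eq_or_lt with h | h
    · exact ⟨0, h ▸ Finset.mem_insert_self _ _⟩
    obtain ⟨k, rfl⟩ : b ∈ range e := he ▸ h
    obtain ⟨n, hn⟩ := k3 k
    have h1 : e k ≤ γ (κ (n + N)) :=
      (le_partialSups e k).trans (g2 (hn.trans (k2 (Nat.le_add_right _ _))))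
    obtain ⟨m, hm⟩ := (ih _ (g1 (κ (n + N)))).q5 _ h1
    refine ⟨n + N + m, Finset.mem_insert_of_mem ?_⟩
    have h2 : γ (κ (n + N)) ∈ G (n + N + m) := G3 (Nat.le_add_right _ _) (by
      rw [G2 _ (by omega)]; exact (ih _ (g1 _)).q1 _)
    rw [G2 _ (by omega)] at h2 ⊢
    exact (p3 _ (g1 _) _ _ h2 _ h1).2 ((ih _ (g1 _)).q4 (by omega) hm)
  · obtain ⟨n, hn⟩ := k3 k
    refine ⟨n + N, fun m hm => ?_⟩
    have h1 := Finset.card_insert_le β (G m)
    have h2 := k4 m m le_rfl (by omega)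
    have h3 := k2 (show n ≤ m by omega)
    rw [← G2 m (by omega)] at h2
    omega

theorem exF [WellFoundedLT W] (hc : ∀ β : W, (Iio β).Countable) :
    ∃ F : ℕ → W → Finset W, OM F ∧ ∀ n a, (F n a).card ≤ n + 1 := by
  let F : W → ℕ → Finset W := (wellFounded_lt (α := W)).fix
    fun β r => Classical.epsilon (Q β r)
  have hF : ∀ β, Q β (fun a _ => F a) (F β) := by
    intro β
    induction β using WellFoundedLT.induction with
    | ind β ih =>
      have e : F β = Classical.epsilon (Q β fun a _ => F a) := WellFounded.fix_eq _ _ _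
      rw [e]
      exact Classical.epsilon_spec (step β (hc β) F ih)
  refine ⟨fun n a => F a n, ⟨fun n a => (hF a).q1 n, fun n a => (hF a).q2 n,
    fun n a b hb c hc => ?_, fun a => (hF a).q4, fun a b => (hF a).q5 b, fun a => ?_⟩,
    fun n a => (hF a).q6 n⟩
  · rcases ((hF a).q2 n b hb).eq_or_lt with h | h
    · rw [h]
    · exact (hF a).q3 n b hb h c hc
  · exact (Finset.eq_of_subset_of_card_le (Finset.singleton_subset_iff.2 ((hF a).q1 0))
      ((hF a).q6 0)).symm

variable {F : ℕ → W → Finset W}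

theorem op (i : W) (b : Bool) : IsOpen {B : KK F | B.1 i = b} :=
  (isOpen_discrete {b}).preimage (f := fun B : KK F => B.1 i)
    ((continuous_apply i).comp continuous_subtype_val)

theorem OM.sc [WellFoundedLT W] (h : OM F) (hc : ∀ n a, (F n a).card ≤ n + 1) (s : Set (KK F))
    (hs : s.Nonempty) : ∃ x ∈ s, ∃ U : Set (KK F), IsOpen U ∧ U ∩ s = {x} := by
  classical
  by_cases h1 : ∃ B ∈ s, ∃ ξ γ, ξ ≤ γ ∧ B.1 γ = true ∧ B.1 ξ = false
  · obtain ⟨B, hB, ξ, γ, h2, h3, h4⟩ := h1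
    obtain ⟨n, hn⟩ := h.p5 γ ξ h2
    have bd : ∀ B : KK F, B.1 γ = true → B.1 ξ = false → ∀ t : Finset W,
        (∀ i ∈ t, B.1 i = true) → t.card ≤ n := by
      intro B b1 b2 t ht
      have o : ∀ i b, IsOpen {B : W → Bool | B i = b} := fun i b =>
        (isOpen_discrete {b}).preimage (f := fun B : W → Bool => B i) (continuous_apply i)
      obtain ⟨_, hy, ⟨m, a⟩, rfl⟩ := mem_closure_iff.1 B.2 _ ((o γ true).inter ((o ξ false).inter
        (isOpen_biInter_finset (s := t) fun i _ => o i true))) ⟨b1, b2, mem_iInter₂.2 ht⟩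
      have y1 : γ ∈ F m a := of_decide_eq_true hy.1
      have y2 : ξ ∉ F m a := of_decide_eq_false hy.2.1
      have y3 : t ⊆ F m a := fun i hi => of_decide_eq_true (mem_iInter₂.1 hy.2.2 i hi)
      have y4 : m < n := lt_of_not_ge fun hnm => y2 ((h.p3 m a γ y1 ξ h2).2 (h.p4 γ hnm hn))
      have := (Finset.card_le_card y3).trans (hc m a)
      omega
    let P : ℕ → Prop := fun k => ∃ B ∈ s, B.1 γ = true ∧ B.1 ξ = false ∧ ∃ t : Finset W,
      (∀ i ∈ t, B.1 i = true) ∧ t.card = k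
    obtain ⟨C, c1, c2, c3, t, c4, c5⟩ : P (Nat.findGreatest P n) :=
      Nat.findGreatest_spec (Nat.zero_le n) ⟨B, hB, h3, h4, ∅, by simp, rfl⟩
    have mx : ∀ B ∈ s, B.1 γ = true → B.1 ξ = false → (∀ i ∈ t, B.1 i = true) →
        ∀ i, B.1 i = true → i ∈ t := by
      intro B b0 b1 b2 b3 i hi
      by_contra hn'
      have e : ∀ j ∈ insert i t, B.1 j = true := by simpa [hi] using b3
      have := Nat.le_findGreatest (P := P) (bd B b1 b2 _ e) ⟨B, b0, b1, b2, _, e, rfl⟩
      rw [Finset.card_insert_of_notMem hn'] at this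
      omega
    refine ⟨C, c1, _, (op γ true).inter ((op ξ false).inter
      (isOpen_biInter_finset (s := t) fun i _ => op i true)), ?_⟩
    refine eq_singleton_iff_unique_mem.2 ⟨⟨⟨c2, c3, mem_iInter₂.2 c4⟩, c1⟩, ?_⟩
    rintro D ⟨⟨d1, d2, d3⟩, d0⟩
    have d4 := mem_iInter₂.1 d3
    refine Subtype.ext (funext fun i => Bool.eq_iff_iff.2 ⟨fun hi => ?_, fun hi => ?_⟩)
    · exact c4 i (mx D d0 d1 d2 d4 i hi)
    · exact d4 i (mx C c1 c2 c3 c4 i hi)
  · push Not at h1
    by_cases h2 : ∃ a, ∃ B ∈ s, B.1 a = false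
    · obtain ⟨a, ⟨B, hB, ha⟩, hm⟩ := wellFounded_lt.has_min {a | ∃ B ∈ s, B.1 a = false} h2
      have key : ∀ C ∈ s, C.1 a = false → ∀ i, C.1 i = decide (i < a) := by
        intro C c1 c2 i
        rcases lt_or_ge i a with hi | hi
        · rw [decide_eq_true hi]
          by_contra hn
          exact hm i ⟨C, c1, by simpa using hn⟩ hi
        · rw [decide_eq_false (not_lt.2 hi)]
          by_contra hn
          exact h1 C c1 a i hi (by simpa using hn) c2
      refine ⟨B, hB, _, op a false, eq_singleton_iff_unique_mem.2 ⟨⟨ha, hB⟩, ?_⟩⟩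
      rintro D ⟨d1, d2⟩
      exact Subtype.ext (funext fun i => (key D d2 d1 i).trans (key B hB ha i).symm)
    · push Not at h2
      obtain ⟨B, hB⟩ := hs
      refine ⟨B, hB, univ, isOpen_univ, eq_singleton_iff_unique_mem.2 ⟨⟨trivial, hB⟩, ?_⟩⟩
      rintro D ⟨-, d2⟩
      refine Subtype.ext (funext fun i => ?_)
      have a1 := h2 i D d2
      have a2 := h2 i B hB
      simp_all

theorem OM.low [Infinite W] (h : OM F) (x : W → Bool)
    (hx : ∀ a b, a ≤ b → x b = true → x a = true) : x ∈ KK F := by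
  classical
  refine isClosed_closure.closure_subset (cl fun u => ?_)
  rcases (u.filter fun i => x i = true).eq_empty_or_nonempty with e | e
  · refine ⟨_, h.emp, fun i hi => ?_⟩
    have := Finset.filter_eq_empty_iff.1 e hi
    simp_all [ind]
  · obtain ⟨n, hn⟩ := h.big ((u.filter fun i => x i = true).max' e) u
    have hm := (Finset.mem_filter.1 (Finset.max'_mem _ e)).2
    refine ⟨_, gen n ((u.filter fun i => x i = true).max' e), fun i hi => Bool.eq_iff_iff.2
      ⟨fun h1 => hx _ _ (h.p2 _ _ _ (of_decide_eq_true h1)) hm, fun h1 => decide_eq_true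
        (hn i hi (Finset.le_max' _ _ (Finset.mem_filter.2 ⟨hi, h1⟩)))⟩⟩

theorem kap {E : Type} [NormedAddCommGroup E] [NormedSpace ℝ E] (T : Set (WeakSpace ℝ E))
    (p : WeakSpace ℝ E) (hp : p ∈ closure T) : ∃ S ⊆ T, S.Countable ∧ p ∈ closure S := by
  classical
  let B : Set (WeakDual ℝ E) := WeakDual.toStrongDual ⁻¹' Metric.closedBall 0 1
  have hB : IsCompact B := WeakDual.isCompact_closedBall _ _
  let q : WeakSpace ℝ E → E := (toWeakSpace ℝ E).symm
  have ce : ∀ φ : StrongDual ℝ E, Continuous fun x => φ (q x) := fun φ =>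
    WeakBilin.eval_continuous (topDualPairing ℝ E).flip φ
  have h1 : ∀ n m : ℕ, ∃ u : Finset T, ∀ φ : Fin m → WeakDual ℝ E, (∀ i, φ i ∈ B) →
      ∃ t ∈ u, ∀ i, |φ i (q t) - φ i (q p)| < 1 / ((n : ℝ) + 1) := by
    intro n m
    obtain ⟨u, hu⟩ := (isCompact_univ_pi fun _ : Fin m => hB).elim_finite_subcover
      (fun t : T => ⋂ i, {φ : Fin m → WeakDual ℝ E | |φ i (q t) - φ i (q p)| < 1 / ((n : ℝ) + 1)})
      (fun t => isOpen_iInter_of_finite fun i => isOpen_lt
        ((((WeakDual.eval_continuous _).comp (continuous_apply i)).sub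
          ((WeakDual.eval_continuous _).comp (continuous_apply i))).abs) continuous_const)
      (fun φ _ => by
        obtain ⟨t, t1, t2⟩ := mem_closure_iff.1 hp
          (⋂ i, {x | |φ i (q x) - φ i (q p)| < 1 / ((n : ℝ) + 1)})
          (isOpen_iInter_of_finite fun i => isOpen_lt
            (((ce (WeakDual.toStrongDual (φ i))).sub continuous_const).abs) continuous_const)
          (mem_iInter.2 fun i => by
            rw [mem_ofPred_eq, sub_self, abs_zero]; exact Nat.one_div_pos_of_nat)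
        exact mem_iUnion.2 ⟨⟨t, t2⟩, mem_iInter.2 fun i => mem_iInter.1 t1 i⟩)
    refine ⟨u, fun φ hφ => ?_⟩
    obtain ⟨t, t1, t2⟩ := mem_iUnion₂.1 (hu (a := φ) fun i _ => hφ i)
    exact ⟨t, t1, fun i => by have := mem_iInter.1 t2 i; exact this⟩
  choose u hu using h1
  refine ⟨⋃ n, ⋃ m, (↑) '' (u n m : Set T), iUnion₂_subset fun n m => Subtype.coe_image_subset _ _,
    countable_iUnion fun n => countable_iUnion fun m => (u n m).countable_toSet.image _, ?_⟩
  have h2 : ∀ a : Finset (StrongDual ℝ E) × ℕ, ∃ t ∈ ⋃ n, ⋃ m, (↑) '' (u n m : Set T),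
      ∀ ψ ∈ a.1, |ψ (q t) - ψ (q p)| ≤ (‖ψ‖ + 1) * (1 / ((a.2 : ℝ) + 1)) := by
    rintro ⟨A, n⟩
    obtain ⟨t, t1, t2⟩ := hu n A.card (fun i => StrongDual.toWeakDual
      ((‖(A.equivFin.symm i).1‖ + 1)⁻¹ • (A.equivFin.symm i).1)) fun i => by
        simp only [B, mem_preimage, mem_closedBall_zero_iff]
        change ‖(‖(A.equivFin.symm i).1‖ + 1)⁻¹ • (A.equivFin.symm i).1‖ ≤ 1
        rw [norm_smul, norm_inv, Real.norm_of_nonneg (by positivity), inv_mul_le_iff₀
          (by positivity)]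
        linarith
    refine ⟨t, mem_iUnion₂.2 ⟨n, A.card, t, t1, rfl⟩, fun ψ hψ => ?_⟩
    have := t2 (A.equivFin ⟨ψ, hψ⟩)
    rw [Equiv.symm_apply_apply] at this
    change |(‖ψ‖ + 1)⁻¹ * ψ (q t) - (‖ψ‖ + 1)⁻¹ * ψ (q p)| < _ at this
    rw [← mul_sub, abs_mul, abs_of_pos (by positivity), inv_mul_lt_iff₀ (by positivity)] at this
    exact this.le
  choose t t1 t2 using h2
  refine mem_closure_of_tendsto (b := atTop) ?_ (.of_forall t1)
  refine (WeakBilin.tendsto_iff_forall_eval_tendsto (topDualPairing ℝ E).flip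
    (separatingDual_iff_injective.1 inferInstance)).2 fun ψ => ?_
  refine tendsto_iff_norm_sub_tendsto_zero.2 (squeeze_zero' (.of_forall fun _ => norm_nonneg _)
    (g := fun a : Finset (StrongDual ℝ E) × ℕ => (‖ψ‖ + 1) * (1 / ((a.2 : ℝ) + 1))) ?_ ?_)
  · filter_upwards [eventually_ge_atTop ({ψ}, 0)] with a ha
    exact t2 a ψ (ha.1 (Finset.mem_singleton_self ψ))
  · rw [← mul_zero (‖ψ‖ + 1)]
    refine (tendsto_one_div_add_atTop_nhds_zero_nat.comp ?_).const_mul _
    rw [← prod_atTop_atTop_eq]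
    exact tendsto_snd

theorem OM.ne (h : OM F) (hU : ¬ (univ : Set W).Countable) {E : Type} [NormedAddCommGroup E]
    [NormedSpace ℝ E] (S : Set (WeakSpace ℝ E)) (e : KK F ≃ₜ S) : False := by
  have hinf : Infinite W := by
    by_contra hn
    have := not_infinite_iff_finite.1 hn
    exact hU countable_univ
  have hv : IsInducing fun x => (e x : WeakSpace ℝ E) := IsInducing.subtypeVal.comp e.isInducing
  let g : ℕ × W → KK F := fun p => ⟨_, gen p.1 p.2⟩
  let top : KK F := ⟨fun _ => true, h.low _ fun _ _ _ _ => rfl⟩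
  have h1 : top ∈ closure (range g) := by
    rw [IsInducing.subtypeVal.closure_eq_preimage_closure_image, ← range_comp]
    exact top.2
  rw [hv.closure_eq_preimage_closure_image] at h1
  obtain ⟨T, t1, t2, t3⟩ := kap _ _ h1
  rw [← range_comp] at t1
  choose p hp using t1
  have := t2.to_subtype
  obtain ⟨ξ, hξ⟩ : ∃ ξ, ξ ∉ ⋃ t : T, (F (p t.2).1 (p t.2).2 : Set W) := by
    by_contra hn
    push Not at hn
    exact hU ((countable_iUnion fun t => Finset.countable_toSet _).mono fun ξ _ => hn ξ)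
  have h2 : top ∈ closure (range fun t : T => g (p t.2)) := by
    rw [hv.closure_eq_preimage_closure_image]
    refine closure_mono (fun t ht => ?_) t3
    exact ⟨_, ⟨⟨t, ht⟩, rfl⟩, hp ht⟩
  obtain ⟨_, y1, t, rfl⟩ := mem_closure_iff.1 h2 _ (op ξ true) rfl
  exact hξ (mem_iUnion.2 ⟨t, of_decide_eq_true y1⟩)

abbrev Om : Type := (Cardinal.aleph.{0} 1).ord.ToType

theorem Om1 : ¬ (univ : Set Om).Countable := by
  rw [← Cardinal.le_aleph0_iff_set_countable, Cardinal.mk_univ, Cardinal.mk_ord_toType, not_le]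
  exact Cardinal.aleph0_lt_aleph_one

theorem Om2 (a : Om) : (Iio a).Countable :=
  Cardinal.le_aleph0_iff_set_countable.1 (Cardinal.lt_aleph_one_iff.1 (Cardinal.mk_Iio_toType_ord_lt a))

end Pool.Agent.H.MP_d2b9e5
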