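import Pool.Agent.H.MP_d2b9e5.B

set_option autoImplicit false
open Set Filter Topology Ordinal BoundedContinuousFunction

namespace Pool.Agent.H.MP_d2b9e5

noncomputable abbrev o1 : Ordinal.{0} := Ordinal.omega 1

theorem lim1 {a : Ordinal.{0}} (h : a < o1) : a + 1 < o1 :=
  (Cardinal.isSuccLimit_omega 1).add_one_lt h

theorem cI {a : Ordinal.{0}} (h : a < o1) : (Iio a).Countable := by
  rw [← Cardinal.le_aleph0_iff_set_countable, Cardinal.mk_Iio_ordinal, Cardinal.lift_le_aleph0,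
    ← Cardinal.lt_aleph_one_iff]
  exact Cardinal.lt_omega_iff_card_lt.1 h

theorem clo (a : Ordinal.{0}) : IsClopen (Iic a) :=
  ⟨isClosed_Iic, by rw [← Order.Iio_succ]; exact isOpen_Iio⟩

noncomputable def ch (a : Ordinal.{0}) : Iic o1 →ᵇ ℝ :=
  BoundedContinuousFunction.indicator _ ((clo a).preimage continuous_subtype_val)

theorem che (a : Ordinal.{0}) (b : Iic o1) : ch a b = if b.1 ≤ a then 1 else 0 := by
  classical
  exact (Set.indicator_apply _ _ _).trans (if_congr Iff.rfl rfl rfl)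

theorem bv (ν : (Iic o1 →ᵇ ℝ) →L[ℝ] ℝ) (a b : ℕ → Ordinal.{0}) (h1 : ∀ k, a k ≤ b k)
    (h2 : ∀ k, b k ≤ a (k + 1)) (s : ℕ → ℝ) (hs : ∀ k, |s k| ≤ 1) (n : ℕ) :
    |∑ k ∈ Finset.range n, s k * (ν (ch (b k)) - ν (ch (a k)))| ≤ ‖ν‖ := by
  have m : ∀ {x y : Ordinal.{0}}, x ≤ y → ∀ t, ch x t ≤ ch y t := fun h t => by
    rw [che, che]
    split_ifs with e1 e2
    · exact le_rfl
    · exact absurd (e1.trans h) e2
    all_goals norm_num
  have e : ∑ k ∈ Finset.range n, s k * (ν (ch (b k)) - ν (ch (a k))) =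
      ν (∑ k ∈ Finset.range n, s k • (ch (b k) - ch (a k))) := by simp [map_sum]
  rw [e]
  refine (ν.le_opNorm _).trans (mul_le_of_le_one_right (norm_nonneg _)
    ((BoundedContinuousFunction.norm_le zero_le_one).2 fun t => ?_))
  rw [BoundedContinuousFunction.sum_apply]
  refine (norm_sum_le _ _).trans ((Finset.sum_le_sum
    (g := fun k => ch (a (k + 1)) t - ch (a k) t) fun k _ => ?_).trans ?_)
  · change |s k * (ch (b k) t - ch (a k) t)| ≤ _
    rw [abs_mul, abs_of_nonneg (sub_nonneg.2 (m (h1 k) t))]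
    nlinarith [hs k, m (h1 k) t, m (h2 k) t, abs_nonneg (s k)]
  · rw [Finset.sum_range_sub fun k => ch (a k) t, che, che]
    split_ifs <;> norm_num

theorem stab (ν : (Iic o1 →ᵇ ℝ) →L[ℝ] ℝ) :
    ∃ a < o1, ∀ b, a ≤ b → b < o1 → ν (ch b) = ν (ch a) := by
  have h1 : ∀ n : ℕ, ∃ a < o1, ∀ b c, a ≤ b → b ≤ c → c < o1 →
      |ν (ch c) - ν (ch b)| ≤ 1 / ((n : ℝ) + 1) := by
    intro n
    by_contra hn
    push Not at hn
    choose! b c h1 h2 h3 h4 using hn
    let u : ℕ → Ordinal.{0} := fun k => c^[k] 0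
    have u1 : ∀ k, u (k + 1) = c (u k) := fun k => Function.iterate_succ_apply' _ _ _
    have u2 : ∀ k, u k < o1 := fun k => by
      induction k with
      | zero => exact omega_pos 1
      | succ k ih => rw [u1]; exact h3 _ ih
    obtain ⟨N, hN⟩ := exists_nat_gt (‖ν‖ * (n + 1))
    have := bv ν (fun k => b (u k)) (fun k => c (u k)) (fun k => h2 _ (u2 k))
      (fun k => u1 k ▸ h1 _ (u2 (k + 1)))
      (fun k => SignType.sign (ν (ch (c (u k))) - ν (ch (b (u k)))))
      (fun k => by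
        generalize SignType.sign (ν (ch (c (u k))) - ν (ch (b (u k)))) = z
        cases z <;> simp) N
    simp only [sign_mul_self] at this
    have h5 := Finset.card_nsmul_le_sum (Finset.range N) _ _ fun k _ => (h4 _ (u2 k)).le
    rw [Finset.card_range, _root_.nsmul_eq_mul, mul_one_div, div_le_iff₀ (by positivity)] at h5
    have h6 := mul_le_mul_of_nonneg_right ((le_abs_self _).trans this)
      (show (0 : ℝ) ≤ n + 1 by positivity)
    linarith
  choose a h2 h3 using h1
  refine ⟨⨆ n, a n, iSup_lt_omega_one h2, fun b hb hb' => ?_⟩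
  by_contra hn
  obtain ⟨n, hn'⟩ := exists_nat_one_div_lt (abs_pos.2 (sub_ne_zero.2 hn))
  exact absurd (h3 n _ b (Ordinal.le_iSup a n) hb hb') (not_le.2 hn')

theorem noemb {V I : Type} [NormedAddCommGroup V] [NormedSpace ℝ V] (x : I → V)
    (f : I → V →L[ℝ] ℝ) (h2 : ∀ i j : I, i ≠ j → f i (x j) = 0)
    (h3 : Dense (Submodule.span ℝ (range x) : Set V))
    (h4 : ∀ y : V, ∃ g ∈ Submodule.span ℝ (range f), ‖g‖ ≤ 1 ∧ 1 / 2 * ‖y‖ ≤ |g y|)
    (T : (Iic o1 →ᵇ ℝ) →L[ℝ] V) {c : ℝ} (hc : 0 < c) (hT : ∀ g, c * ‖g‖ ≤ ‖T g‖) : False := by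
  classical
  have fin : ∀ (v : V) (n : ℕ), {i | 1 / ((n : ℝ) + 1) * ‖f i‖ < |f i v|}.Finite := by
    intro v n
    obtain ⟨y, hy, hd⟩ := h3.exists_dist_lt v (Nat.one_div_pos_of_nat (n := n))
    obtain ⟨a, rfl⟩ := Finsupp.mem_span_range_iff_exists_finsupp.1 hy
    refine a.support.finite_toSet.subset fun i hi => ?_
    by_contra hn
    have e : f i (a.sum fun j r => r • x j) = 0 := by
      rw [Finsupp.sum, map_sum]
      exact Finset.sum_eq_zero fun j hj => by
        rw [map_smul, h2 i j fun e => hn (e ▸ hj), smul_zero]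
    have := (f i).le_opNorm (v - a.sum fun j r => r • x j)
    rw [map_sub, e, _root_.sub_zero, ← dist_eq_norm] at this
    have h5 := mul_le_mul_of_nonneg_left hd.le (norm_nonneg (f i))
    have h6 : 1 / ((n : ℝ) + 1) * ‖f i‖ < |f i v| := hi
    rw [Real.norm_eq_abs] at this
    linarith
  have small : ∀ (i : I) (r : ℝ), r ≠ 0 → ∃ n : ℕ, 1 / ((n : ℝ) + 1) * ‖f i‖ < |r| := by
    intro i r hr
    obtain ⟨n, hn⟩ := exists_nat_one_div_lt
      (div_pos (abs_pos.2 hr) (show 0 < ‖f i‖ + 1 by positivity))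
    rw [lt_div_iff₀ (by positivity)] at hn
    exact ⟨n, by nlinarith [Nat.one_div_pos_of_nat (α := ℝ) (n := n)]⟩
  have sup : ∀ v : V, {i | f i v ≠ 0}.Countable := fun v =>
    (countable_iUnion fun n => (fin v n).countable).mono fun i hi => mem_iUnion.2 (small i _ hi)
  choose s s1 s2 using fun i => stab ((f i).comp T)
  simp only [ContinuousLinearMap.comp_apply] at s2
  have hE : {i | f i (T (ch (s i))) ≠ 0}.Countable := by
    refine (countable_iUnion fun n : ℕ => Finite.countable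
      (s := {i | 1 / ((n : ℝ) + 1) * ‖f i‖ < |f i (T (ch (s i)))|}) ?_).mono
      fun i hi => mem_iUnion.2 (small i _ hi)
    by_contra hn
    let e := Set.Infinite.natEmbedding _ hn
    refine (infinite_range_of_injective (Subtype.val_injective.comp e.injective)).mono ?_
      (fin (T (ch (⨆ k, s (e k)))) n)
    rintro _ ⟨k, rfl⟩
    have := (e k).2
    rwa [mem_ofPred_eq, ← s2 _ _ (Ordinal.le_iSup (fun k => s (e k)) k)
      (iSup_lt_omega_one fun k => s1 _)] at this
  let M : Ordinal.{0} → Set I := fun d =>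
    {i | f i (T (ch (s i))) ≠ 0} ∪ ⋃ a ∈ Iio d, {i | f i (T (ch a)) ≠ 0}
  have nx : ∀ d < o1, ∃ e < o1, d < e ∧ ∀ i ∈ M d, s i < e := by
    intro d hd
    have := (hE.union ((cI hd).biUnion fun a _ => sup (T (ch a)))).to_subtype
    refine ⟨max d (⨆ i : M d, s i) + 1, lim1 (max_lt hd (iSup_lt_omega_one fun i => s1 _)),
      (le_max_left _ _).trans_lt (lt_add_one _), fun i hi =>
      ((Ordinal.le_iSup (fun i : M d => s i) ⟨i, hi⟩).trans (le_max_right _ _)).trans_lt
        (lt_add_one _)⟩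
  choose! n n1 n2 n3 using nx
  have cls : ∀ d < o1, ∃ e < o1, d < e ∧ ∀ i ∈ M e, s i < e := by
    intro d hd
    let u : ℕ → Ordinal.{0} := fun k => n^[k] d
    have u1 : ∀ k, u (k + 1) = n (u k) := fun k => Function.iterate_succ_apply' _ _ _
    have u2 : ∀ k, u k < o1 := fun k => by
      induction k with
      | zero => exact hd
      | succ k ih => rw [u1]; exact n1 _ ih
    refine ⟨⨆ k, u k, iSup_lt_omega_one u2, (n2 d hd).trans_le (Ordinal.le_iSup u 1),
      fun i hi => ?_⟩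
    obtain ⟨k, hk⟩ : ∃ k, i ∈ M (u k) := by
      rcases hi with h | h
      · exact ⟨0, Or.inl h⟩
      · obtain ⟨a, ha, h⟩ := mem_iUnion₂.1 h
        obtain ⟨k, hk⟩ := Ordinal.lt_iSup_iff.1 ha
        exact ⟨k, Or.inr (mem_iUnion₂.2 ⟨a, hk, h⟩)⟩
    exact (u1 k ▸ n3 _ (u2 k) i hk).trans_le (Ordinal.le_iSup u (k + 1))
  choose! p p1 p2 p3 using cls
  let d : ℕ → Ordinal.{0} := fun k => p^[k] 0
  have d1 : ∀ k, d (k + 1) = p (d k) := fun k => Function.iterate_succ_apply' _ _ _
  have d2 : ∀ k, d k < o1 := fun k => by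
    induction k with
    | zero => exact omega_pos 1
    | succ k ih => rw [d1]; exact p1 _ ih
  have d3 : StrictMono d := strictMono_nat_of_lt_succ fun k => d1 k ▸ p2 _ (d2 k)
  have key : ∀ φ ∈ Submodule.span ℝ (range f), ∃ v, ∀ k, ∃ a < d (k + 1), ∀ b, a ≤ b →
      b < d (k + 1) → φ (T (ch b)) = v := by
    intro φ hφ
    induction hφ using Submodule.span_induction with
    | mem g hg =>
      obtain ⟨i, rfl⟩ := hg
      refine ⟨f i (T (ch (s i))), fun k => ?_⟩
      by_cases hi : i ∈ M (d (k + 1))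
      · exact ⟨s i, d1 k ▸ p3 _ (d2 k) i (d1 k ▸ hi), fun b hb hb' => s2 i b hb (hb'.trans (d2 _))⟩
      · refine ⟨d k, d3 (Nat.lt_succ_self k), fun b _ hb => ?_⟩
        have e1 : f i (T (ch (s i))) = 0 := by_contra fun h => hi (Or.inl h)
        rw [e1]
        exact by_contra fun h => hi (Or.inr (mem_iUnion₂.2 ⟨b, hb, h⟩))
    | zero => exact ⟨0, fun k => ⟨d k, d3 (Nat.lt_succ_self k), fun _ _ _ => rfl⟩⟩
    | add g g' _ _ ha hb =>
      obtain ⟨v, hv⟩ := ha
      obtain ⟨w, hw⟩ := hb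
      refine ⟨v + w, fun k => ?_⟩
      obtain ⟨a, a1, a2⟩ := hv k
      obtain ⟨b, b1, b2⟩ := hw k
      exact ⟨max a b, max_lt a1 b1, fun e e1 e2 => by
        rw [ContinuousLinearMap.add_apply, a2 e (le_of_max_le_left e1) e2,
          b2 e (le_of_max_le_right e1) e2]⟩
    | smul r g _ ha =>
      obtain ⟨v, hv⟩ := ha
      refine ⟨r * v, fun k => ?_⟩
      obtain ⟨a, a1, a2⟩ := hv k
      exact ⟨a, a1, fun e e1 e2 => by
        rw [ContinuousLinearMap.smul_apply, a2 e e1 e2, _root_.smul_eq_mul]⟩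
  obtain ⟨N, hN⟩ := exists_nat_gt (2 * ‖T‖ / c)
  let sg : ℕ → ℝ := fun k => if k < N then -1 else 1
  have sg1 : ∀ F : ℕ → ℝ, ∑ k ∈ Finset.range (N + N), sg k * F k =
      ∑ k ∈ Finset.range N, F (N + k) - ∑ k ∈ Finset.range N, F k := by
    intro F
    rw [Finset.sum_range_add, Finset.sum_congr rfl (g := fun k => - F k) fun k hk => by
      simp [sg, Finset.mem_range.1 hk], Finset.sum_neg_distrib]
    simp [sg, neg_add_eq_sub]
  let g : Iic o1 →ᵇ ℝ := ∑ k ∈ Finset.range (N + N), sg k • ch (d (k + 1))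
  have g1 : (N : ℝ) ≤ ‖g‖ := by
    refine le_trans (le_of_eq ?_) ((le_abs_self _).trans
      (g.norm_coe_le_norm ⟨d (N + 1), (d2 _).le⟩))
    rw [BoundedContinuousFunction.sum_apply]
    simp only [BoundedContinuousFunction.smul_apply, _root_.smul_eq_mul, che, d3.le_iff_le]
    rw [sg1 fun k => if N + 1 ≤ k + 1 then 1 else 0, Finset.sum_eq_zero (s := Finset.range N)
      (f := fun k => if N + 1 ≤ k + 1 then (1 : ℝ) else 0) fun k hk =>
        if_neg (by have := Finset.mem_range.1 hk; omega)]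
    simp
  obtain ⟨φ, q1, q2, q3⟩ := h4 (T g)
  obtain ⟨v, hv⟩ := key φ q1
  choose a a1 a2 using hv
  have b1 := bv (φ.comp T) (fun k => max (a k) (d k)) (fun k => d (k + 1))
    (fun k => (max_lt (a1 k) (d3 (Nat.lt_succ_self k))).le) (fun k => le_max_right _ _) sg
    (fun k => by simp only [sg]; split_ifs <;> simp) (N + N)
  have b2 : ∀ k, φ (T (ch (max (a k) (d k)))) = v := fun k =>
    a2 k _ (le_max_left _ _) (max_lt (a1 k) (d3 (Nat.lt_succ_self k)))
  simp only [ContinuousLinearMap.comp_apply, b2, _root_.mul_sub, Finset.sum_sub_distrib] at b1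
  rw [sg1 fun _ => v, _root_.sub_self, _root_.sub_zero] at b1
  have b3 : φ (T g) = ∑ k ∈ Finset.range (N + N), sg k * φ (T (ch (d (k + 1)))) := by
    simp [g, map_sum]
  rw [← b3] at b1
  have b4 : ‖φ.comp T‖ ≤ ‖T‖ :=
    (φ.opNorm_comp_le T).trans (mul_le_of_le_one_left (norm_nonneg _) q2)
  rw [div_lt_iff₀ hc] at hN
  nlinarith [hT g, mul_le_mul_of_nonneg_left g1 hc.le]

theorem emb {F : ℕ → Om → Finset Om} (h : OM F) : ∃ e : Iic o1 → KK F, IsEmbedding e := by
  have hinf : Infinite Om := by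
    by_contra hn
    have := not_infinite_iff_finite.1 hn
    exact Om1 countable_univ
  have hcp : CompactSpace (Iic o1) := isCompact_iff_compactSpace.1 (by
    rw [← Icc_bot]; exact isCompact_Icc)
  let t : Om → Ordinal.{0} := fun w => (ToType.mk.symm w).1
  let e : Iic o1 → KK F := fun a => ⟨fun w => decide (t w < a.1), h.low _ fun b c hbc hc =>
    decide_eq_true (lt_of_le_of_lt (ToType.mk.symm.monotone hbc) (of_decide_eq_true hc))⟩
  have hc : Continuous e := by
    refine continuous_induced_rng.2 (continuous_pi fun w => ?_)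
    refine ((continuous_boolIndicator_iff_isClopen {a : Iic o1 | t w < a.1}).2 ?_).congr fun a => ?_
    · have := ((clo (t w)).preimage (continuous_subtype_val (p := (· ∈ Iic o1)))).compl
      convert this using 1
      ext a
      simp
    · simp [e, boolIndicator]
  refine ⟨e, (hc.isClosedEmbedding ?_).isEmbedding⟩
  have key : ∀ a b : Iic o1, a < b → e a ≠ e b := by
    intro a b hab he
    have h1 : a.1 < (Cardinal.aleph.{0} 1).ord := by
      rw [Cardinal.ord_aleph]; exact lt_of_lt_of_le hab b.2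
    have := congrFun (congrArg Subtype.val he) (ToType.mk ⟨a.1, h1⟩)
    simp only [e, t, OrderIso.symm_apply_apply, lt_self_iff_false, decide_false] at this
    exact of_decide_eq_false this.symm hab
  intro a b he
  rcases lt_trichotomy a b with h1 | h1 | h1
  · exact absurd he (key a b h1)
  · exact h1
  · exact absurd he.symm (key b a h1)

theorem val {W : Type} [LinearOrder W] (F : ℕ → W → Finset W) :
    ∃ (Γ : Type) (h : KK F → Γ → ℝ), IsEmbedding h ∧
      Dense (h ⁻¹' {y | {γ | y γ ≠ 0}.Countable}) := by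
  let φ : KK F → W → ℝ := fun x j => ee _ j x
  have hφc : Continuous φ := continuous_pi fun j => (ee _ j).continuous
  refine ⟨W, φ, (hφc.isClosedEmbedding fun x y hxy => Subtype.ext (funext fun j => ?_)).isEmbedding,
    ?_⟩
  · have := congrFun hxy j
    change (if x.1 j = true then (1 : ℝ) else 0) = if y.1 j = true then 1 else 0 at this
    cases hx : x.1 j <;> cases hy : y.1 j <;> simp_all
  · rw [Subtype.dense_iff]
    refine closure_mono ?_
    rintro _ ⟨p, rfl⟩
    refine ⟨⟨_, gen p.1 p.2⟩, (F p.1 p.2).countable_toSet.mono fun j hj => ?_, rfl⟩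
    by_contra hn
    exact hj (if_neg fun e => hn (of_decide_eq_true e))

end Pool.Agent.H.MP_d2b9e5
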